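import Pool.Agent.Work.MP_ce2d68_du.Interface

/-!
# MP_ce2d68_nt, strong duality, block POLY: regular polygons (helper79)
-/

set_option autoImplicit false

open Polynomial Filter Topology MeasureTheory
open scoped ComplexConjugate

namespace Pool.Agent.Work.MP_ce2d68_du.h79

open Pool.Agent.Work.MP_ce2d68_st

/-- the product over the powers of a primitive root of unity -/
lemma prod_pow {n : ℕ} (hn : 0 < n) {w : ℂ} (hw : IsPrimitiveRoot w n) (x y : ℂ) :
    ∏ k ∈ Finset.range n, (x - w ^ k * y) = x ^ n - y ^ n := by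
  have hinj : Set.InjOn (fun k : ℕ => w ^ k) (Finset.range n) := by
    intro j hj k hk h
    exact hw.pow_inj (Finset.mem_range.1 hj) (Finset.mem_range.1 hk) h
  have himg : (Finset.range n).image (fun k => w ^ k) = nthRootsFinset n (1 : ℂ) := by
    apply Finset.eq_of_subset_of_card_le
    · intro z hz
      rw [Finset.mem_image] at hz
      obtain ⟨k, _, rfl⟩ := hz
      rw [mem_nthRootsFinset hn, ← pow_mul, mul_comm, pow_mul, hw.pow_eq_one, one_pow]
    · rw [hw.card_nthRootsFinset, Finset.card_image_of_injOn hinj, Finset.card_range]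
  rw [hw.pow_sub_pow_eq_prod_sub_mul x y hn, ← himg, Finset.prod_image hinj]

/-- Riemann sums of a function with Lipschitz constant one -/
lemma riemann (h : ℝ → ℝ) (hL : ∀ x y, |h x - h y| ≤ |x - y|) {n : ℕ} (hn : 0 < n) :
    |∑ k ∈ Finset.range n, h (k * (2 * Real.pi / n))
      - n * ((2 * Real.pi)⁻¹ * ∫ x in (0 : ℝ)..(2 * Real.pi), h x)| ≤ 2 * Real.pi := by
  have hn' : (0 : ℝ) < n := by exact_mod_cast hn
  have hpi := Real.pi_pos
  obtain ⟨δ, hδ⟩ : ∃ δ : ℝ, δ = 2 * Real.pi / n := ⟨_, rfl⟩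
  rw [← hδ]
  have hδ0 : 0 < δ := by rw [hδ]; positivity
  have hnδ : (n : ℝ) * δ = 2 * Real.pi := by rw [hδ]; field_simp
  have hc : Continuous h := by
    apply (LipschitzWith.of_dist_le_mul (K := 1) (f := h) _).continuous
    intro x y
    simpa [Real.dist_eq] using hL x y
  have hint : ∀ a b : ℝ, IntervalIntegrable h volume a b := fun a b => hc.intervalIntegrable a b
  have hstep : ∀ k : ℕ, (((k + 1 : ℕ) : ℝ) * δ) - (k : ℝ) * δ = δ := by
    intro k; push_cast; ring
  have hsum : ∑ k ∈ Finset.range n, ∫ x in ((k : ℝ) * δ)..(((k + 1 : ℕ) : ℝ) * δ), h x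
      = ∫ x in (0 : ℝ)..(2 * Real.pi), h x := by
    have h1 := intervalIntegral.sum_integral_adjacent_intervals (f := h) (μ := volume)
      (a := fun k : ℕ => (k : ℝ) * δ) (n := n) (fun k _ => hint _ _)
    simp only [Nat.cast_zero, zero_mul, hnδ] at h1
    exact h1
  have hk : ∀ k ∈ Finset.range n,
      |δ * h (k * δ) - ∫ x in ((k : ℝ) * δ)..(((k + 1 : ℕ) : ℝ) * δ), h x| ≤ δ * δ := by
    intro k _
    have e : δ * h (k * δ) - ∫ x in ((k : ℝ) * δ)..(((k + 1 : ℕ) : ℝ) * δ), h x
        = ∫ x in ((k : ℝ) * δ)..(((k + 1 : ℕ) : ℝ) * δ), (h (k * δ) - h x) := by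
      rw [intervalIntegral.integral_sub intervalIntegrable_const (hint _ _),
        intervalIntegral.integral_const, hstep, smul_eq_mul]
    rw [e, ← Real.norm_eq_abs]
    have hb : ‖∫ x in ((k : ℝ) * δ)..(((k + 1 : ℕ) : ℝ) * δ), (h (k * δ) - h x)‖
        ≤ δ * |(((k + 1 : ℕ) : ℝ) * δ) - (k : ℝ) * δ| := by
      apply intervalIntegral.norm_integral_le_of_norm_le_const
      intro x hx
      have hle : (k : ℝ) * δ ≤ ((k + 1 : ℕ) : ℝ) * δ := by
        have := hstep k
        linarith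
      rw [Set.uIoc_of_le hle] at hx
      rw [Real.norm_eq_abs]
      refine (hL _ _).trans ?_
      rw [abs_sub_comm, abs_of_nonneg (by linarith [hx.1])]
      have h2 := hx.2
      have h3 := hstep k
      linarith
    refine hb.trans (le_of_eq ?_)
    rw [hstep, abs_of_pos hδ0]
  have e2 : ∑ k ∈ Finset.range n, h (k * δ)
      - n * ((2 * Real.pi)⁻¹ * ∫ x in (0 : ℝ)..(2 * Real.pi), h x)
      = δ⁻¹ * ∑ k ∈ Finset.range n,
        (δ * h (k * δ) - ∫ x in ((k : ℝ) * δ)..(((k + 1 : ℕ) : ℝ) * δ), h x) := by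
    rw [Finset.sum_sub_distrib, hsum, ← Finset.mul_sum, mul_sub, ← mul_assoc δ⁻¹,
      inv_mul_cancel₀ hδ0.ne', one_mul, ← mul_assoc (n : ℝ)]
    have : (n : ℝ) * (2 * Real.pi)⁻¹ = δ⁻¹ := by
      rw [hδ]; field_simp
    rw [this]
  rw [e2, abs_mul, abs_of_pos (inv_pos.2 hδ0)]
  have h4 : |∑ k ∈ Finset.range n,
      (δ * h (k * δ) - ∫ x in ((k : ℝ) * δ)..(((k + 1 : ℕ) : ℝ) * δ), h x)|
      ≤ ∑ _k ∈ Finset.range n, δ * δ :=
    (Finset.abs_sum_le_sum_abs _ _).trans (Finset.sum_le_sum hk)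
  rw [Finset.sum_const, Finset.card_range, nsmul_eq_mul] at h4
  have h5 : δ⁻¹ * ((n : ℝ) * (δ * δ)) = 2 * Real.pi := by
    rw [← hnδ]; field_simp
  rw [← h5]
  exact mul_le_mul_of_nonneg_left h4 (inv_pos.2 hδ0).le

theorem p_POLY : Stmt_POLY := by
  intro p ζ t n ht hn hζ
  have hn0 : 0 < n := hn
  have hnne : n ≠ 0 := by omega
  have hnR : (1 : ℝ) ≤ n := by exact_mod_cast hn
  obtain ⟨w, hwdef⟩ : ∃ w : ℂ, w = Complex.exp (2 * Real.pi * Complex.I / n) := ⟨_, rfl⟩
  have hw : IsPrimitiveRoot w n := by rw [hwdef]; exact Complex.isPrimitiveRoot_exp n hnne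
  have htz : (t : ℂ) * ζ ≠ 0 := by
    apply mul_ne_zero
    · exact_mod_cast ht.ne'
    · intro h
      rw [h, norm_zero] at hζ
      exact zero_ne_one hζ
  have hwn : ‖w‖ = 1 := by
    rw [hwdef]
    have : (2 * Real.pi * Complex.I / n : ℂ) = ((2 * Real.pi / n : ℝ) : ℂ) * Complex.I := by
      push_cast; ring
    rw [this, Complex.norm_exp_ofReal_mul_I]
  obtain ⟨nd, hnd⟩ : ∃ nd : ℕ → ℂ, ∀ k, nd k = p + w ^ k * (t * ζ) := ⟨fun k => _, fun k => rfl⟩
  have hinj : Set.InjOn nd (Finset.range n) := by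
    intro j hj k hk h
    rw [hnd, hnd, add_right_inj] at h
    exact hw.pow_inj (Finset.mem_range.1 hj) (Finset.mem_range.1 hk) (mul_right_cancel₀ htz h)
  have hdist : ∀ k, ‖nd k - p‖ = t := by
    intro k
    rw [hnd, add_sub_cancel_left, norm_mul, norm_pow, hwn, one_pow, one_mul, norm_mul, hζ, mul_one,
      Complex.norm_real, Real.norm_eq_abs, abs_of_pos ht]
  obtain ⟨N, hN⟩ : ∃ N : Finset ℂ, N = (Finset.range n).image nd := ⟨_, rfl⟩
  have hcard : N.card = n := by
    rw [hN, Finset.card_image_of_injOn hinj, Finset.card_range]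
  have hNd : ∀ a ∈ N, ‖a - p‖ = t := by
    intro a ha
    rw [hN, Finset.mem_image] at ha
    obtain ⟨k, _, rfl⟩ := ha
    exact hdist k
  have hprod : ∀ z : ℂ, ∏ b ∈ N, (z - b) = (z - p) ^ n - (t * ζ) ^ n := by
    intro z
    rw [hN, Finset.prod_image hinj, ← prod_pow hn0 hw]
    apply Finset.prod_congr rfl
    intro k _
    rw [hnd]; ring
  have hroot : ∀ a ∈ N, (a - p) ^ n = (t * ζ) ^ n := by
    intro a ha
    have h1 := hprod a
    rw [Finset.prod_eq_zero ha (sub_self a)] at h1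
    exact (sub_eq_zero.1 h1.symm)
  have key : ∀ a ∈ N, ∀ z : ℂ, ∏ b ∈ N.erase a, (z - b)
      = ∑ i ∈ Finset.range n, (z - p) ^ i * (a - p) ^ (n - 1 - i) := by
    intro a ha z
    have h1 : (∏ b ∈ N.erase a, (X - C b)) * (X - C a)
        = (∑ i ∈ Finset.range n, (X - C p) ^ i * C ((a - p) ^ (n - 1 - i))) * (X - C a) := by
      apply Polynomial.funext
      intro y
      rw [eval_mul, eval_mul, eval_prod, eval_finsetSum]
      simp only [eval_sub, eval_X, eval_C, eval_mul, eval_pow]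
      rw [Finset.prod_erase_mul N (fun b => y - b) ha, hprod, ← hroot a ha]
      have h2 := geom_sum₂_mul (y - p) (a - p) n
      rw [← h2]
      ring
    have h3 := mul_right_cancel₀ (X_sub_C_ne_zero a) h1
    have h4 := congrArg (eval z) h3
    rw [eval_prod, eval_finsetSum] at h4
    simpa only [eval_sub, eval_X, eval_C, eval_mul, eval_pow] using h4
  refine ⟨N, hcard, hNd, hprod, ?_, ?_, ?_⟩
  · intro a ha z
    rw [← Finset.prod_congr rfl (fun b _ => rfl), ← norm_prod, key a ha z]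
    obtain ⟨M, hM⟩ : ∃ M : ℝ, M = max ‖z - p‖ t := ⟨_, rfl⟩
    rw [← hM]
    have hMt : t ≤ M := by rw [hM]; exact le_max_right _ _
    have hMz : ‖z - p‖ ≤ M := by rw [hM]; exact le_max_left _ _
    have hM0 : 0 < M := ht.trans_le hMt
    have h1 : ‖∑ i ∈ Finset.range n, (z - p) ^ i * (a - p) ^ (n - 1 - i)‖
        ≤ ∑ _i ∈ Finset.range n, M ^ (n - 1) := by
      refine norm_sum_le_of_le _ ?_
      intro i hi
      rw [norm_mul, norm_pow, norm_pow, hNd a ha]
      have hi' : i + (n - 1 - i) = n - 1 := by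
        have := Finset.mem_range.1 hi
        omega
      calc ‖z - p‖ ^ i * t ^ (n - 1 - i) ≤ M ^ i * M ^ (n - 1 - i) := by gcongr
        _ = M ^ (n - 1) := by rw [← pow_add, hi']
    rw [Finset.sum_const, Finset.card_range, nsmul_eq_mul] at h1
    refine h1.trans ?_
    have h2 : M ^ n = M ^ (n - 1) * M := by
      rw [← pow_succ]; congr 1; omega
    rw [h2, div_mul_eq_mul_div, le_div_iff₀ ht, mul_assoc]
    gcongr
  · have h1 : ∀ a ∈ N, ((n : ℝ) - 1) * Real.log t ≤ ∑ b ∈ N.erase a, Real.log ‖a - b‖ := by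
      intro a ha
      have hne : ∀ b ∈ N.erase a, ‖a - b‖ ≠ 0 := by
        intro b hb
        rw [Finset.mem_erase] at hb
        exact norm_ne_zero_iff.2 (sub_ne_zero.2 (Ne.symm hb.1))
      rw [← Real.log_prod hne, ← norm_prod, key a ha a]
      have h2 : ∑ i ∈ Finset.range n, (a - p) ^ i * (a - p) ^ (n - 1 - i)
          = (n : ℂ) * (a - p) ^ (n - 1) := by
        have h5 : ∀ i ∈ Finset.range n, (a - p) ^ i * (a - p) ^ (n - 1 - i) = (a - p) ^ (n - 1) := by
          intro i hi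
          have hi' : i + (n - 1 - i) = n - 1 := by
            have := Finset.mem_range.1 hi
            omega
          rw [← pow_add, hi']
        rw [Finset.sum_congr rfl h5, Finset.sum_const, Finset.card_range, nsmul_eq_mul]
      rw [h2, norm_mul, norm_pow, hNd a ha, Complex.norm_natCast,
        Real.log_mul (by positivity) (by positivity), Real.log_pow, Nat.cast_sub hn, Nat.cast_one]
      have h3 : 0 ≤ Real.log n := Real.log_nonneg hnR
      linarith
    have h4 := Finset.sum_le_sum h1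
    rw [Finset.sum_const, hcard, nsmul_eq_mul] at h4
    linarith
  · intro f hf
    have hz : ζ = Complex.exp (ζ.arg * Complex.I) := by
      have h1 := Complex.norm_mul_exp_arg_mul_I ζ
      rw [hζ, Complex.ofReal_one, one_mul] at h1
      exact h1.symm
    have hcm : ∀ k : ℕ, nd k = circleMap p t ((k : ℝ) * (2 * Real.pi / n) + ζ.arg) := by
      intro k
      rw [hnd, circleMap, hwdef, ← Complex.exp_nat_mul]
      have h1 : ((((k : ℝ) * (2 * Real.pi / n) + ζ.arg : ℝ) : ℂ)) * Complex.I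
          = (k : ℂ) * (2 * Real.pi * Complex.I / n) + ζ.arg * Complex.I := by
        push_cast; ring
      rw [h1, Complex.exp_add, ← hz]
      ring
    have hL : ∀ x y : ℝ, |f (circleMap p t (x + ζ.arg)) - f (circleMap p t (y + ζ.arg))|
        ≤ |x - y| := by
      intro x y
      refine (hf _ _).trans ?_
      rw [div_le_iff₀ ht]
      have h1 := (lipschitzWith_circleMap p t).dist_le_mul (x + ζ.arg) (y + ζ.arg)
      rw [dist_eq_norm, Real.dist_eq, Real.coe_nnabs, abs_of_pos ht, add_sub_add_right_eq_sub,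
        mul_comm] at h1
      exact h1
    have h2 := riemann (fun x => f (circleMap p t (x + ζ.arg))) hL hn0
    have h3 : ∑ a ∈ N, f a
        = ∑ k ∈ Finset.range n, f (circleMap p t ((k : ℝ) * (2 * Real.pi / n) + ζ.arg)) := by
      rw [hN, Finset.sum_image hinj]
      apply Finset.sum_congr rfl
      intro k _
      rw [hcm]
    rw [h3, Real.circleAverage_eq_integral_add ζ.arg, smul_eq_mul]
    exact h2

end Pool.Agent.Work.MP_ce2d68_du.h79
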